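import Pool.Agent.T9h55.PG.In
import Pool.Agent.H447R2.ML.Luc
import Pool.Agent.H305R2.AE2

/-!
# Almost primes at the distance of a small power from the Fibonacci and Lucas numbers, with the same small residues

Let `a` be a sequence of natural numbers of the size of `φ ^ n`, up to constants, such that for all large primes `p` the
prime factors of `a p` are larger than `p`; the Fibonacci and the Lucas numbers are such sequences. Let `0 < θ < 1` and
`γ > 0` and put `T a θ γ p = a p + lcm(1, ..., ⌊θ p / 50⌋) ⌊γ 2 ^ k⌋` with `k = ⌊(θ / 2) p log φ / log 2⌋`. Then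
`a p ≤ T a θ γ p ≤ a p + (φ ^ p) ^ θ` for all large `p`, and `T a θ γ p` is congruent to `a p` modulo all positive
integers `m ≤ θ p / 50`.

For every `θ > 0`, however small, there are `η, c, C > 0` such that for almost every `γ > 0` the number of primes
`p ≤ n` for which all prime factors of `T a θ γ p` are larger than `2 ^ (η p)` lies between `c log n` and `C log n`, for
all large `n`. These `T a θ γ p` have less than `1 / η` prime factors, counted with multiplicity. For every set `S` of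
primes the number of these `p` in `S` lies between `c V` and `C V`, where `V = ∑ log p / p` over the primes `p ≤ n` of
`S`, if these sums are unbounded, and stays bounded if they are bounded.

Proof (`Pool/Agent/T9h55/PG`). Given the first binary digits of `γ`, the number `T a θ γ p` runs through an arithmetic
progression. Lower bounds for one prime `p` are from the fundamental lemma of the sieve, upper bounds for one and for
two primes from the large sieve for the linear forms of the remaining digits. Dyadic blocks of primes, split into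
finitely many classes, give sums of differences whose conditional means are at most zero and whose positive parts have
small second moment; Chebyshev's inequality and the Borel-Cantelli lemma conclude.
-/

set_option autoImplicit false

namespace Pool.Agent.Results.MP_5893d7_nt.AlmostPrimesSmallPowers

open Filter Topology MeasureTheory

/-- The golden ratio. -/
noncomputable def φ : ℝ := (1 + Real.sqrt 5) / 2

/-- The Lucas numbers. -/
def L : ℕ → ℕ
  | 0 => 2
  | 1 => 1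
  | (n + 2) => L (n + 1) + L n

/-- The sequence `a` has the size of `φ ^ n`, with the constant `K`. -/
def Size (K : ℝ) (a : ℕ → ℕ) : Prop := ∀ᶠ n : ℕ in atTop, φ ^ n ≤ K * a n ∧ (a n : ℝ) ≤ K * φ ^ n

/-- For all large primes `p` the prime factors of `a p` are larger than `p`. -/
def LargeFactors (a : ℕ → ℕ) : Prop := ∀ᶠ p : ℕ in atTop, p.Prime → ∀ q : ℕ, q.Prime → q ∣ a p → p < q

/-- The perturbation of `a p`: `a p + lcm(1, ..., ⌊θ p / 50⌋) ⌊γ 2 ^ k⌋` with `k = ⌊(θ / 2) p log φ / log 2⌋`. -/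
noncomputable def T (a : ℕ → ℕ) (θ γ : ℝ) (p : ℕ) : ℕ :=
  a p + (Finset.Icc 1 ⌊θ / 50 * (p : ℝ)⌋₊).lcm id * ⌊γ * 2 ^ ⌊θ / 2 * (p * (Real.log φ / Real.log 2))⌋₊⌋₊

/-- All prime factors of `v` are larger than `2 ^ (η p)`. -/
def Rough (η : ℝ) (p v : ℕ) : Prop := ∀ q : ℕ, q.Prime → q ∣ v → (2 : ℝ) ^ (η * p) < q

open Classical in
/-- The number of primes `p ≤ n` in the set `S` such that all prime factors of `T a θ γ p` are larger than
`2 ^ (η p)`. -/
noncomputable def M (S : Set ℕ) (a : ℕ → ℕ) (θ η γ : ℝ) (n : ℕ) : ℕ :=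
  ((Finset.range (n + 1)).filter (fun p => p.Prime ∧ p ∈ S ∧ Rough η p (T a θ γ p))).card

open Classical in
/-- The sum of `log p / p` over the primes `p ≤ n` in the set `S`. -/
noncomputable def V (S : Set ℕ) (n : ℕ) : ℝ :=
  ∑ p ∈ (Finset.range (n + 1)).filter (fun p => p.Prime ∧ p ∈ S), Real.log p / p

lemma V_eq (S : Set ℕ) (n : ℕ) : V S n = Pool.Agent.T9h55.PF.vv (Pool.Agent.T9h55.PF.PS S n) := rfl

lemma XA_eq (a : ℕ → ℕ) (θ η γ : ℝ) (p : ℕ) [Decidable (Rough η p (T a θ γ p))] :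
    Pool.Agent.T9h55.PG.XA a (Pool.Agent.T9h55.PG.M2 θ) η p ⌊γ * 2 ^ Pool.Agent.T9h55.PG.k2 θ p⌋₊ =
      if Rough η p (T a θ γ p) then 1 else 0 := by
  unfold Pool.Agent.T9h55.PG.XA
  have e : a p + Pool.Agent.T9h55.PG.M2 θ p * ⌊γ * 2 ^ Pool.Agent.T9h55.PG.k2 θ p⌋₊ = T a θ γ p := rfl
  rw [e]
  by_cases h : Rough η p (T a θ γ p)
  · have h' : ∀ q : ℕ, q.Prime → q ∣ T a θ γ p → (2 : ℝ) ^ (η * p) < q := h
    rw [if_pos h', if_pos h]
  · have h' : ¬ ∀ q : ℕ, q.Prime → q ∣ T a θ γ p → (2 : ℝ) ^ (η * p) < q := h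
    rw [if_neg h', if_neg h]

lemma M_eq (S : Set ℕ) (a : ℕ → ℕ) (θ η γ : ℝ) (n : ℕ) :
    (M S a θ η γ n : ℝ) = Pool.Agent.T9h55.PG.MM (Pool.Agent.T9h55.PG.XA a (Pool.Agent.T9h55.PG.M2 θ) η)
      (Pool.Agent.T9h55.PG.k2 θ) (Pool.Agent.T9h55.PF.PS S n) γ := by
  classical
  unfold M Pool.Agent.T9h55.PG.MM Pool.Agent.T9h55.PF.PS
  rw [Finset.sum_congr rfl fun p _ => XA_eq a θ η γ p, ← Finset.sum_filter, Finset.sum_const, nsmul_eq_mul, mul_one,
    Finset.filter_filter]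
  congr 3
  ext p
  constructor
  · rintro ⟨h1, h2, h3⟩
    exact ⟨⟨h1, h2⟩, h3⟩
  · rintro ⟨⟨h1, h2⟩, h3⟩
    exact ⟨h1, h2, h3⟩

lemma V_univ (n : ℕ) : V Set.univ n = ∑ p ∈ (Finset.Icc 1 n).filter Nat.Prime, Real.log p / p := by
  classical
  unfold V
  congr 1
  ext p
  simp only [Finset.mem_filter, Finset.mem_range, Finset.mem_Icc, Set.mem_univ, and_true]
  constructor
  · rintro ⟨h1, h2⟩
    exact ⟨⟨h2.one_lt.le, by omega⟩, h2⟩
  · rintro ⟨h1, h2⟩
    exact ⟨by omega, h2⟩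

lemma V_log : ∀ᶠ n : ℕ in atTop, Real.log n / 2 ≤ V Set.univ n ∧ V Set.univ n ≤ 2 * Real.log n := by
  have h := Pool.Agent.H305R2.mertens_ratio
  have h1 := h.eventually (lt_mem_nhds (show (1 / 2 : ℝ) < 1 by norm_num))
  have h2 := h.eventually (gt_mem_nhds (show (1 : ℝ) < 2 by norm_num))
  filter_upwards [h1, h2, eventually_ge_atTop 2] with n g1 g2 g3
  have hlog : 0 < Real.log n := Real.log_pos (by
    have : (2 : ℝ) ≤ n := by exact_mod_cast g3
    linarith)
  rw [lt_div_iff₀ hlog] at g1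
  rw [div_lt_iff₀ hlog] at g2
  rw [V_univ]
  constructor <;> linarith

lemma fib_eq (n : ℕ) : Pool.Agent.H447R2.ML.U 1 n = Nat.fib n := by
  induction n using Nat.twoStepInduction with
  | zero => rfl
  | one => rfl
  | more n h1 h2 =>
    rw [Pool.Agent.H447R2.ML.U_add_two, h1, h2, Nat.fib_add_two]
    ring

lemma luc_eq (n : ℕ) : Pool.Agent.H447R2.ML.V 1 n = L n := by
  induction n using Nat.twoStepInduction with
  | zero => rfl
  | one => rfl
  | more n h1 h2 =>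
    show _ = L (n + 1) + L n
    rw [Pool.Agent.H447R2.ML.V_add_two, h1, h2]
    ring

lemma list_pow (x : ℝ) (hx : 0 ≤ x) (l : List ℕ) (hl : ∀ q ∈ l, x < q) : x ^ l.length ≤ (l.prod : ℝ) := by
  induction l with
  | nil => simp
  | cons q l ih =>
    rw [List.length_cons, List.prod_cons, pow_succ, Nat.cast_mul]
    have h1 := ih fun q hq => hl q (List.mem_cons_of_mem _ hq)
    have h2 := hl q List.mem_cons_self
    calc x ^ l.length * x ≤ (l.prod : ℝ) * q := mul_le_mul h1 h2.le hx (by positivity)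
      _ = _ := mul_comm _ _

/-- `a p ≤ T a θ γ p ≤ a p + (φ ^ p) ^ θ` -/
lemma near (a : ℕ → ℕ) {θ : ℝ} (hθ : 0 < θ) {γ : ℝ} (hγ : 0 < γ) :
    ∀ᶠ p : ℕ in atTop, a p ≤ T a θ γ p ∧ (T a θ γ p : ℝ) ≤ a p + (φ ^ p) ^ θ := by
  have hφ1 : 1 < φ := Real.one_lt_goldenRatio
  have hφ0 : 0 < φ := by linarith
  have hr1 : 1 < φ ^ (θ / 4) := Real.one_lt_rpow hφ1 (by positivity)
  have h1 : Tendsto (fun p : ℕ => (φ ^ (θ / 4)) ^ p) atTop atTop := tendsto_pow_atTop_atTop_of_one_lt hr1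
  filter_upwards [h1.eventually_ge_atTop γ] with p hp
  refine ⟨Nat.le_add_right _ _, ?_⟩
  unfold T
  push_cast
  have e1 : (((Finset.Icc 1 ⌊θ / 50 * (p : ℝ)⌋₊).lcm id : ℕ) : ℝ) ≤ φ ^ (θ / 4 * p) :=
    Pool.Agent.T9h55.PG.M2_size hθ p
  have e2 : ((⌊γ * 2 ^ ⌊θ / 2 * (p * (Real.log φ / Real.log 2))⌋₊⌋₊ : ℕ) : ℝ) ≤ φ ^ (θ / 4 * p) * φ ^ (θ / 2 * p) := by
    refine (Nat.floor_le (by positivity)).trans ?_
    refine mul_le_mul ?_ ?_ (by positivity) (by positivity)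
    · refine hp.trans (le_of_eq ?_)
      rw [← Real.rpow_natCast, ← Real.rpow_mul hφ0.le]
    · have e3 : φ ^ (θ / 2 * p) = (2 : ℝ) ^ (θ / 2 * (p * (Real.log φ / Real.log 2))) := by
        rw [Real.rpow_def_of_pos hφ0, Real.rpow_def_of_pos (by norm_num)]
        congr 1
        have : Real.log 2 ≠ 0 := (Real.log_pos (by norm_num)).ne'
        field_simp
      rw [e3, ← Real.rpow_natCast]
      refine Real.rpow_le_rpow_of_exponent_le (by norm_num) (Nat.floor_le ?_)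
      have h3 : 0 ≤ Real.log φ := Real.log_nonneg hφ1.le
      have h4 : 0 ≤ Real.log 2 := Real.log_nonneg (by norm_num)
      positivity
  have e4 : (φ ^ p) ^ θ = φ ^ (θ / 4 * p) * (φ ^ (θ / 4 * p) * φ ^ (θ / 2 * p)) := by
    rw [← Real.rpow_natCast, ← Real.rpow_mul hφ0.le, ← Real.rpow_add hφ0, ← Real.rpow_add hφ0]
    congr 1
    ring
  rw [e4]
  have e5 : (((Finset.Icc 1 ⌊θ / 50 * (p : ℝ)⌋₊).lcm id : ℕ) : ℝ) *
      ((⌊γ * 2 ^ ⌊θ / 2 * (p * (Real.log φ / Real.log 2))⌋₊⌋₊ : ℕ) : ℝ) ≤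
      φ ^ (θ / 4 * p) * (φ ^ (θ / 4 * p) * φ ^ (θ / 2 * p)) :=
    mul_le_mul e1 e2 (Nat.cast_nonneg _) (by positivity)
  linarith

/-- **Almost primes at the distance of a small power from the Fibonacci and Lucas numbers.** -/
theorem result :
    -- the Fibonacci and the Lucas numbers
    ((∃ K : ℝ, Size K Nat.fib) ∧ LargeFactors Nat.fib) ∧ ((∃ K : ℝ, Size K L) ∧ LargeFactors L) ∧
    -- the perturbations
    ∀ θ : ℝ, 0 < θ → θ < 1 → ∃ η c C : ℝ, 0 < η ∧ 0 < c ∧ 0 < C ∧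
      ∀ (a : ℕ → ℕ) (K : ℝ), Size K a → LargeFactors a →
        (∀ γ : ℝ, 0 < γ → ∀ᶠ p : ℕ in atTop, a p ≤ T a θ γ p ∧ (T a θ γ p : ℝ) ≤ a p + (φ ^ p) ^ θ) ∧
        (∀ (γ : ℝ) (p m : ℕ), 1 ≤ m → (m : ℝ) ≤ θ / 50 * p → T a θ γ p ≡ a p [MOD m]) ∧
        (∀ γ : ℝ, 0 < γ → ∀ᶠ p : ℕ in atTop, Rough η p (T a θ γ p) →
          ((T a θ γ p).primeFactorsList.length : ℝ) < 1 / η) ∧
        (∀ᵐ γ : ℝ, 0 < γ → ∀ᶠ n : ℕ in atTop,
          c * Real.log n ≤ M Set.univ a θ η γ n ∧ (M Set.univ a θ η γ n : ℝ) ≤ C * Real.log n) ∧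
        ∀ S : Set ℕ,
          ((∀ B : ℝ, ∃ n, B ≤ V S n) → ∀ᵐ γ : ℝ, 0 < γ → ∀ᶠ n : ℕ in atTop,
            c * V S n ≤ M S a θ η γ n ∧ (M S a θ η γ n : ℝ) ≤ C * V S n) ∧
          ((∃ B : ℝ, ∀ n, V S n ≤ B) → ∀ᵐ γ : ℝ, 0 < γ →
            {p : ℕ | p.Prime ∧ p ∈ S ∧ Rough η p (T a θ γ p)}.Finite) := by
  refine ⟨⟨?_, ?_⟩, ⟨?_, ?_⟩, fun θ hθ hθ1 => ?_⟩
  · exact Pool.Agent.T9h55.PF.fib_size Nat.fib (fun n => by rw [Nat.fib_add_two]; ring) (Or.inr (by norm_num))
  · filter_upwards [eventually_gt_atTop 5] with p h5 hp q hq hd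
    rw [← fib_eq] at hd
    refine Pool.Agent.H447R2.ML.lt_of_dvd_U 1 hp (by omega) ?_ hq hd
    intro h1
    have := Nat.le_of_dvd (by norm_num) h1
    omega
  · exact Pool.Agent.T9h55.PF.fib_size L (fun n => rfl) (Or.inr (by decide))
  · filter_upwards [eventually_gt_atTop 5] with p h5 hp q hq hd
    rw [← luc_eq] at hd
    exact Pool.Agent.H447R2.ML.lt_of_dvd_V 1 hp (by omega) (fun h1 => hp.one_lt.ne' (Nat.dvd_one.1 h1)) hq
      (fun h' => hq.one_lt.ne' (Nat.dvd_one.1 h')) hd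
  have hρ : 0 < Real.logb 2 Real.goldenRatio := by
    have := Pool.Agent.T9h55.PF.logb_gt
    linarith
  obtain ⟨η, hη, hsys⟩ := Pool.Agent.T9h55.PG.sys (θ * Real.logb 2 Real.goldenRatio / 4) (θ / 100) 1
    (Pool.Agent.T9h55.PG.Cg θ) 1 (by positivity) (by positivity) one_pos (Pool.Agent.T9h55.PG.Cg_pos hθ) le_rfl
  obtain ⟨c₀, C₀, hc₀, hC₀, hsys⟩ := hsys η hη le_rfl
  obtain ⟨c, C, hc, hC, hlaw⟩ := Pool.Agent.T9h55.PG.law (θ * Real.logb 2 Real.goldenRatio / 4 / 2) c₀ C₀ 1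
    (by positivity) hc₀ hC₀
  refine ⟨η, c / 2, 2 * C, hη, by positivity, by positivity, fun a K ha hL => ?_⟩
  have h := hlaw (Pool.Agent.T9h55.PG.XA a (Pool.Agent.T9h55.PG.M2 θ) η) (Pool.Agent.T9h55.PG.k2 θ) (fun m => by
    obtain ⟨N₀, D⟩ := Pool.Agent.T9h55.PG.ad a K ha hL θ hθ hθ1 m
    exact hsys a (Pool.Agent.T9h55.PG.M2 θ) (fun p => Pool.Agent.T9h55.PG.k2 θ p + m) _ N₀ D)
  refine ⟨fun γ hγ => near a hθ hγ, fun γ p m hm1 hm2 => ?_, fun γ hγ => ?_, ?_, fun S => ⟨fun hS => ?_, fun hS => ?_⟩⟩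
  · unfold T
    have h1 : m ∣ (Finset.Icc 1 ⌊θ / 50 * (p : ℝ)⌋₊).lcm id :=
      Finset.dvd_lcm (f := id) (Finset.mem_Icc.2 ⟨hm1, Nat.le_floor hm2⟩)
    have h2 : (Finset.Icc 1 ⌊θ / 50 * (p : ℝ)⌋₊).lcm id *
        ⌊γ * 2 ^ ⌊θ / 2 * (p * (Real.log φ / Real.log 2))⌋₊⌋₊ ≡ 0 [MOD m] :=
      (Nat.modEq_zero_iff_dvd).2 (h1.mul_right _)
    have h3 := h2.add_left (a p)
    rwa [add_zero] at h3
  · have hφ1 : 1 < φ := Real.one_lt_goldenRatio
    have hφ0 : 0 < φ := by linarith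
    have hφ2 : φ < 2 := Real.goldenRatio_lt_two
    have h1 : Tendsto (fun n : ℕ => (2 / φ) ^ n) atTop atTop :=
      tendsto_pow_atTop_atTop_of_one_lt ((one_lt_div hφ0).2 hφ2)
    filter_upwards [near a hθ hγ, ha, h1.eventually_gt_atTop (K + 1), eventually_gt_atTop 0] with p g1 g2 g3 g4 hR
    have hT0 : T a θ γ p ≠ 0 := by
      intro h0
      obtain ⟨q, hq⟩ := Nat.exists_infinite_primes (⌊(2 : ℝ) ^ (η * p)⌋₊ + 1)
      have h5 : φ ^ p ≤ K * a p := g2.1
      have h6 : a p = 0 := by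
        have := g1.1
        omega
      rw [h6] at h5
      simp only [Nat.cast_zero, mul_zero] at h5
      have : 0 < φ ^ p := by positivity
      linarith
    have hTlt : (T a θ γ p : ℝ) < (2 : ℝ) ^ p := by
      rw [div_pow, lt_div_iff₀ (by positivity)] at g3
      have h5 : (φ ^ p) ^ θ ≤ φ ^ p := by
        calc (φ ^ p) ^ θ ≤ (φ ^ p) ^ (1 : ℝ) :=
              Real.rpow_le_rpow_of_exponent_le (one_le_pow₀ hφ1.le) hθ1.le
          _ = _ := Real.rpow_one _
      linarith [g1.2, g2.2]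
    have h6 := list_pow ((2 : ℝ) ^ (η * p)) (by positivity) (T a θ γ p).primeFactorsList
      (fun q hq => hR q (Nat.prime_of_mem_primeFactorsList hq) (Nat.dvd_of_mem_primeFactorsList hq))
    rw [Nat.prod_primeFactorsList hT0] at h6
    have h7 := h6.trans_lt hTlt
    rw [← Real.rpow_natCast ((2 : ℝ) ^ (η * p)), ← Real.rpow_mul (by norm_num), ← Real.rpow_natCast 2 p,
      Real.rpow_lt_rpow_left_iff (by norm_num)] at h7
    have hp0 : (0 : ℝ) < p := by exact_mod_cast g4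
    rw [lt_div_iff₀ hη]
    have h8 : p * ((T a θ γ p).primeFactorsList.length * η) < p * 1 := by
      rw [mul_one]
      calc p * ((T a θ γ p).primeFactorsList.length * η) = η * p * (T a θ γ p).primeFactorsList.length := by ring
        _ < p := h7
    exact lt_of_mul_lt_mul_left h8 hp0.le
  · have hun : ∀ B : ℝ, ∃ n, B ≤ V Set.univ n := by
      intro B
      have h1 : Tendsto (fun n : ℕ => Real.log n / 2) atTop atTop :=
        (Real.tendsto_log_atTop.comp tendsto_natCast_atTop_atTop).atTop_div_const (by norm_num)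
      obtain ⟨n, h2, h3⟩ := ((h1.eventually_ge_atTop B).and V_log).exists
      exact ⟨n, h2.trans h3.1⟩
    filter_upwards [(h Set.univ).1 hun] with γ hγ h0
    filter_upwards [hγ h0, V_log] with n g1 g2
    rw [← M_eq, ← V_eq] at g1
    constructor
    · calc c / 2 * Real.log n = c * (Real.log n / 2) := by ring
        _ ≤ c * V Set.univ n := mul_le_mul_of_nonneg_left g2.1 hc.le
        _ ≤ _ := g1.1
    · calc (M Set.univ a θ η γ n : ℝ) ≤ C * V Set.univ n := g1.2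
        _ ≤ C * (2 * Real.log n) := mul_le_mul_of_nonneg_left g2.2 hC.le
        _ = _ := by ring
  · filter_upwards [(h S).1 hS] with γ hγ h0
    filter_upwards [hγ h0] with n g1
    rw [← M_eq, ← V_eq] at g1
    have hv : 0 ≤ V S n := Pool.Agent.T9h55.PF.vv_nonneg _
    have h1 := mul_nonneg hc.le hv
    have h2 := mul_nonneg hC.le hv
    constructor
    · linarith [g1.1]
    · linarith [g1.2]
  · classical
    filter_upwards [(h S).2 hS] with γ hγ h0
    refine (hγ h0).subset ?_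
    rintro p ⟨h1, h2, h3⟩
    refine ⟨h1, h2, ?_⟩
    rw [XA_eq, if_pos h3]

end Pool.Agent.Results.MP_5893d7_nt.AlmostPrimesSmallPowers
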