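import Pool.Agent.T9h55.PF.Fn
import Pool.Agent.H447R2.ML.Luc

/-!
# Primes at a power saving distance from the Fibonacci and Lucas numbers

For a sequence `a` of natural numbers, `θ < 1` and `γ > 0` put `T a θ γ p = a p + ⌊γ 2 ^ k⌋` with
`k = ⌊θ p log φ / log 2⌋`, so that `a p ≤ T a θ γ p ≤ a p + γ (φ ^ p) ^ θ`: if `a` is the sequence of the Fibonacci
numbers or of the Lucas numbers then the distance from `a p` is at most a constant times `(a p) ^ θ`. For a prime `p`
let `W a θ γ p` be the `p`-rough part (the product, with multiplicity, of the prime factors larger than `p`) of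
`T a θ γ p`. The Fibonacci and the Lucas numbers with prime index `p > 5` are equal to their `p`-rough parts.

There are `δ, c, C > 0` such that for all `θ` with `1 - δ < θ < 1` and all sequences `a` of the size of `φ ^ n` (up to
constants; for instance the solutions of the Fibonacci recurrence in natural numbers) and almost every `γ > 0` the
number of primes `p ≤ n` with `W a θ γ p` prime lies between `c log n` and `C log n`, for all large `n`; and, for every
set `S` of primes, this number for the primes in `S` lies between `c V` and `C V`, where `V = ∑ log p / p` over the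
primes `p ≤ n` of `S`, if these sums are unbounded, and stays bounded if they are bounded.

Proof (`Pool/Agent/T9h55/PF`). Given the first binary digits of `γ`, the number `T a θ γ p` runs through an interval
whose length is a power smaller than its place. Lower bounds for one prime `p` are from Hoheisel's theorem on primes in
short intervals, upper bounds for one and for two primes from the large sieve for the linear forms of the remaining
digits. Dyadic blocks of primes, split into finitely many classes, give sums of differences whose conditional means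
are at most zero and whose positive parts have small second moment; Chebyshev's inequality and the Borel-Cantelli lemma
conclude.
-/

set_option autoImplicit false

namespace Pool.Agent.Results.MP_5893d7_nt.PowerSavingPerturbations

open Filter Topology MeasureTheory

/-- The golden ratio. -/
noncomputable def φ : ℝ := (1 + Real.sqrt 5) / 2

/-- The Lucas numbers. -/
def L : ℕ → ℕ
  | 0 => 2
  | 1 => 1
  | (n + 2) => L (n + 1) + L n

/-- The sequence `a` has the size of `φ ^ n`, with the constant `K`. -/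
def Size (K : ℝ) (a : ℕ → ℕ) : Prop := ∀ᶠ n : ℕ in atTop, φ ^ n ≤ K * a n ∧ (a n : ℝ) ≤ K * φ ^ n

/-- The product, with multiplicity, of the prime factors of `m` that are larger than `p`. -/
def roughPart (p m : ℕ) : ℕ := (m.primeFactorsList.filter (fun r => p < r)).prod

/-- The perturbation of `a p`: `a p + ⌊γ 2 ^ k⌋` with `k = ⌊θ p log φ / log 2⌋`. -/
noncomputable def T (a : ℕ → ℕ) (θ γ : ℝ) (p : ℕ) : ℕ :=
  a p + ⌊γ * 2 ^ ⌊θ * (p * (Real.log φ / Real.log 2))⌋₊⌋₊

/-- The `p`-rough part of `T a θ γ p`. -/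
noncomputable def W (a : ℕ → ℕ) (θ γ : ℝ) (p : ℕ) : ℕ := roughPart p (T a θ γ p)

open Classical in
/-- The number of primes `p ≤ n` in the set `S` for which `W a θ γ p` is prime. -/
noncomputable def M (S : Set ℕ) (a : ℕ → ℕ) (θ γ : ℝ) (n : ℕ) : ℕ :=
  ((Finset.range (n + 1)).filter (fun p => p.Prime ∧ p ∈ S ∧ (W a θ γ p).Prime)).card

open Classical in
/-- The sum of `log p / p` over the primes `p ≤ n` in the set `S`. -/
noncomputable def V (S : Set ℕ) (n : ℕ) : ℝ :=
  ∑ p ∈ (Finset.range (n + 1)).filter (fun p => p.Prime ∧ p ∈ S), Real.log p / p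

lemma phi_eq : φ = Real.goldenRatio := rfl

lemma V_eq (S : Set ℕ) (n : ℕ) : V S n = Pool.Agent.T9h55.PF.vv (Pool.Agent.T9h55.PF.PS S n) := rfl

lemma M_eq (S : Set ℕ) (a : ℕ → ℕ) (θ γ : ℝ) (n : ℕ) :
    (M S a θ γ n : ℝ) = Pool.Agent.T9h55.PF.MM a (Pool.Agent.T9h55.PF.kk θ) (Pool.Agent.T9h55.PF.PS S n) γ := by
  classical
  unfold M Pool.Agent.T9h55.PF.MM Pool.Agent.T9h55.PF.PS Pool.Agent.N176.GP.XX
  rw [← Finset.sum_filter, Finset.sum_const, nsmul_eq_mul, mul_one, Finset.filter_filter]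
  congr 3
  ext p
  constructor
  · rintro ⟨h1, h2, h3⟩
    exact ⟨⟨h1, h2⟩, h3⟩
  · rintro ⟨⟨h1, h2⟩, h3⟩
    exact ⟨h1, h2, h3⟩

lemma V_univ (n : ℕ) : V Set.univ n = ∑ p ∈ (Finset.Icc 1 n).filter Nat.Prime, Real.log p / p := by
  classical
  unfold V
  congr 1
  ext p
  simp only [Finset.mem_filter, Finset.mem_range, Finset.mem_Icc, Set.mem_univ, and_true]
  constructor
  · rintro ⟨h1, h2⟩
    exact ⟨⟨h2.one_lt.le, by omega⟩, h2⟩
  · rintro ⟨h1, h2⟩
    exact ⟨by omega, h2⟩

lemma V_log : ∀ᶠ n : ℕ in atTop, Real.log n / 2 ≤ V Set.univ n ∧ V Set.univ n ≤ 2 * Real.log n := by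
  have h := Pool.Agent.H305R2.mertens_ratio
  have h1 := h.eventually (lt_mem_nhds (show (1 / 2 : ℝ) < 1 by norm_num))
  have h2 := h.eventually (gt_mem_nhds (show (1 : ℝ) < 2 by norm_num))
  filter_upwards [h1, h2, eventually_ge_atTop 2] with n g1 g2 g3
  have hlog : 0 < Real.log n := Real.log_pos (by
    have : (2 : ℝ) ≤ n := by exact_mod_cast g3
    linarith)
  rw [lt_div_iff₀ hlog] at g1
  rw [div_lt_iff₀ hlog] at g2
  rw [V_univ]
  constructor <;> linarith

lemma fib_eq (n : ℕ) : Pool.Agent.H447R2.ML.U 1 n = Nat.fib n := by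
  induction n using Nat.twoStepInduction with
  | zero => rfl
  | one => rfl
  | more n h1 h2 =>
    rw [Pool.Agent.H447R2.ML.U_add_two, h1, h2, Nat.fib_add_two]
    ring

lemma luc_eq (n : ℕ) : Pool.Agent.H447R2.ML.V 1 n = L n := by
  induction n using Nat.twoStepInduction with
  | zero => rfl
  | one => rfl
  | more n h1 h2 =>
    show _ = L (n + 1) + L n
    rw [Pool.Agent.H447R2.ML.V_add_two, h1, h2]
    ring

lemma rough_self {p m : ℕ} (hm : m ≠ 0) (h : ∀ q : ℕ, q.Prime → q ∣ m → p < q) : roughPart p m = m := by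
  unfold roughPart
  have h2 : m.primeFactorsList.filter (fun r => p < r) = m.primeFactorsList := by
    rw [List.filter_eq_self]
    intro r hr
    exact decide_eq_true (h r (Nat.prime_of_mem_primeFactorsList hr) (Nat.dvd_of_mem_primeFactorsList hr))
  rw [h2, Nat.prod_primeFactorsList hm]

lemma L_pos (n : ℕ) : 0 < L n := by
  induction n using Nat.twoStepInduction with
  | zero => decide
  | one => decide
  | more n h1 h2 =>
    show 0 < L (n + 1) + L n
    omega

/-- **Power saving perturbations of the Fibonacci and Lucas numbers.** -/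
theorem result : ∃ δ c C : ℝ, 0 < δ ∧ δ < 1 ∧ 0 < c ∧ 0 < C ∧
    -- the Fibonacci and the Lucas numbers, and all solutions of the recurrence in natural numbers
    (∀ U : ℕ → ℕ, (∀ n, U (n + 2) = U (n + 1) + U n) → (U 0 ≠ 0 ∨ U 1 ≠ 0) → ∃ K : ℝ, Size K U) ∧
    (∀ p : ℕ, p.Prime → 5 < p → roughPart p (Nat.fib p) = Nat.fib p ∧ roughPart p (L p) = L p) ∧
    -- the perturbations
    ∀ θ : ℝ, 1 - δ < θ → θ < 1 → ∀ (a : ℕ → ℕ) (K : ℝ), Size K a →
      (∀ γ : ℝ, 0 < γ → ∀ p : ℕ, a p ≤ T a θ γ p ∧ (T a θ γ p : ℝ) ≤ a p + γ * (φ ^ p) ^ θ) ∧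
      (∀ᵐ γ : ℝ, 0 < γ → ∀ᶠ n : ℕ in atTop,
        c * Real.log n ≤ M Set.univ a θ γ n ∧ (M Set.univ a θ γ n : ℝ) ≤ C * Real.log n) ∧
      ∀ S : Set ℕ,
        ((∀ B : ℝ, ∃ n, B ≤ V S n) → ∀ᵐ γ : ℝ, 0 < γ → ∀ᶠ n : ℕ in atTop,
          c * V S n ≤ M S a θ γ n ∧ (M S a θ γ n : ℝ) ≤ C * V S n) ∧
        ((∃ B : ℝ, ∀ n, V S n ≤ B) → ∀ᵐ γ : ℝ, 0 < γ →
          {p : ℕ | p.Prime ∧ p ∈ S ∧ (W a θ γ p).Prime}.Finite) := by
  obtain ⟨δ, c, C, hδ, hδ1, hc, hC, h⟩ := Pool.Agent.T9h55.PF.main
  refine ⟨δ, c / 2, 2 * C, hδ, hδ1, by positivity, by positivity, fun U hU h0 => ?_, fun p hp h5 => ⟨?_, ?_⟩,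
    fun θ hθ hθ1 a K ha => ⟨fun γ hγ p => ⟨Nat.le_add_right _ _, ?_⟩, ?_, fun S => ⟨fun hS => ?_, fun hS => ?_⟩⟩⟩
  · exact Pool.Agent.T9h55.PF.fib_size U hU h0
  · refine rough_self (Nat.fib_pos.2 hp.pos).ne' fun q hq hd => ?_
    rw [← fib_eq] at hd
    refine Pool.Agent.H447R2.ML.lt_of_dvd_U 1 hp (by omega) ?_ hq hd
    intro h1
    have := Nat.le_of_dvd (by norm_num) h1
    omega
  · refine rough_self (L_pos p).ne' fun q hq hd => ?_
    rw [← luc_eq] at hd
    exact Pool.Agent.H447R2.ML.lt_of_dvd_V 1 hp (by omega) (fun h1 => hp.one_lt.ne' (Nat.dvd_one.1 h1)) hq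
      (fun h' => hq.one_lt.ne' (Nat.dvd_one.1 h')) hd
  · have hφ1 : 1 < φ := Real.one_lt_goldenRatio
    have hφ0 : 0 < φ := by linarith
    have h2 : (2 : ℝ) ^ ⌊θ * (p * (Real.log φ / Real.log 2))⌋₊ ≤ (φ ^ p) ^ θ := by
      rcases le_or_gt 0 θ with h0 | h0
      · have e : (φ ^ p) ^ θ = (2 : ℝ) ^ (θ * (p * (Real.log φ / Real.log 2))) := by
          rw [← Real.rpow_natCast, ← Real.rpow_mul hφ0.le, Real.rpow_def_of_pos hφ0,
            Real.rpow_def_of_pos (by norm_num)]
          congr 1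
          have : Real.log 2 ≠ 0 := (Real.log_pos (by norm_num)).ne'
          field_simp
        rw [e, ← Real.rpow_natCast]
        refine Real.rpow_le_rpow_of_exponent_le (by norm_num) (Nat.floor_le ?_)
        have h3 : 0 ≤ Real.log φ := Real.log_nonneg hφ1.le
        have h4 : 0 ≤ Real.log 2 := Real.log_nonneg (by norm_num)
        positivity
      · linarith
    unfold T
    push_cast
    have h3 : ((⌊γ * 2 ^ ⌊θ * (p * (Real.log φ / Real.log 2))⌋₊⌋₊ : ℕ) : ℝ) ≤
        γ * 2 ^ ⌊θ * (p * (Real.log φ / Real.log 2))⌋₊ := Nat.floor_le (by positivity)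
    have h4 := mul_le_mul_of_nonneg_left h2 hγ.le
    linarith
  · have hun : ∀ B : ℝ, ∃ n, B ≤ V Set.univ n := by
      intro B
      have h1 : Tendsto (fun n : ℕ => Real.log n / 2) atTop atTop :=
        (Real.tendsto_log_atTop.comp tendsto_natCast_atTop_atTop).atTop_div_const (by norm_num)
      obtain ⟨n, h2, h3⟩ := ((h1.eventually_ge_atTop B).and V_log).exists
      exact ⟨n, h2.trans h3.1⟩
    filter_upwards [(h θ hθ hθ1 a K ha Set.univ).1 hun] with γ hγ h0
    filter_upwards [hγ h0, V_log] with n g1 g2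
    rw [← M_eq, ← V_eq] at g1
    constructor
    · calc c / 2 * Real.log n = c * (Real.log n / 2) := by ring
        _ ≤ c * V Set.univ n := mul_le_mul_of_nonneg_left g2.1 hc.le
        _ ≤ _ := g1.1
    · calc (M Set.univ a θ γ n : ℝ) ≤ C * V Set.univ n := g1.2
        _ ≤ C * (2 * Real.log n) := mul_le_mul_of_nonneg_left g2.2 hC.le
        _ = _ := by ring
  · filter_upwards [(h θ hθ hθ1 a K ha S).1 hS] with γ hγ h0
    filter_upwards [hγ h0] with n g1
    rw [← M_eq, ← V_eq] at g1
    have hv : 0 ≤ V S n := Pool.Agent.T9h55.PF.vv_nonneg _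
    have h1 := mul_nonneg hc.le hv
    have h2 := mul_nonneg hC.le hv
    constructor
    · linarith [g1.1]
    · linarith [g1.2]
  · exact (h θ hθ hθ1 a K ha S).2 hS

end Pool.Agent.Results.MP_5893d7_nt.PowerSavingPerturbations
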