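import Pool.Agent.T9h55.PI.Mn

/-!
# Primes in the sequences with the recurrence of the Fibonacci numbers, for most initial values

Let `T a b` be the sequence with `T a b 0 = a`, `T a b 1 = b` and `T a b (n + 2) = T a b (n + 1) + T a b n`. For
`(a, b) = (0, 1)`, `(1, 1)` these are the Fibonacci numbers, for `(2, 1)`, `(1, 3)` the Lucas numbers. There are initial
values for which no term is prime (Graham).

Theorem. For all `A ≤ B`, `B` large, and EVERY finite set `S` of indices `n ≥ 1` with `8 F_n ≤ A`, the number of the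
initial values `1 ≤ a ≤ A`, `1 ≤ b ≤ B` for which `T a b n` is prime for some `n` in `S` is between `c |S| A B / log B`
and `C |S| A B / log B`, with absolute constants. In particular a positive proportion `c ε` of the initial values
`a ≤ A`, `b ≤ B`, `B ^ ε ≤ A ≤ B`, lead to a prime number after at most `log A` steps, for every `ε > 0`.

Proof (`Pool/Agent/T9h55/PI`). The mean number of the `n` in `S` with a prime `T a b n` is found by Chebyshev's bounds.
For two indices `m < n` the large sieve in `b` gives an upper bound with the factor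
`exp (h (a) + h (F_n) + h (F_m) + h (F_(n - m)))`, where `h (v)` is the sum of `1 / l` over the prime factors `l` of `v`.
All exponential moments of `h (F_d)`, `d ≤ D`, are bounded (a form of a lemma of Romanoff), because the sum of `1 / l`
over the primes `l` with rank of apparition less than `2 ^ j` is at most `log j + O(1)`; then Cauchy's inequality.
-/

set_option autoImplicit false

namespace Pool.Agent.Results.MP_5893d7_nt.PrimesInFibonacciLikeSequences

open Filter

/-- The sequence with the initial values `a`, `b` and the recurrence of the Fibonacci numbers. -/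
def T (a b : ℕ) : ℕ → ℕ
  | 0 => a
  | 1 => b
  | (n + 2) => T a b (n + 1) + T a b n

open Classical in
/-- The number of the pairs `(a, b)` with `1 ≤ a ≤ A`, `1 ≤ b ≤ B` such that `T a b n` is prime for some `n` in `S`. -/
noncomputable def N (S : Finset ℕ) (A B : ℕ) : ℕ :=
  ((Finset.Icc 1 A ×ˢ Finset.Icc 1 B).filter (fun x => ∃ n ∈ S, (T x.1 x.2 n).Prime)).card

lemma T_eq (a b n : ℕ) : T a b n = Pool.Agent.T9h55.PI.T a b n := by
  induction n using Nat.twoStepInduction with
  | zero => rfl
  | one => rfl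
  | more n h1 h2 =>
    show T a b (n + 1) + T a b n = Pool.Agent.T9h55.PI.T a b (n + 1) + Pool.Agent.T9h55.PI.T a b n
    rw [h1, h2]

open Classical in
lemma N_eq (S : Finset ℕ) (A B : ℕ) : N S A B = ((Finset.Ioc 0 A ×ˢ Finset.Ioc 0 B).filter
    (fun x => ∃ n ∈ S, (Pool.Agent.T9h55.PI.T x.1 x.2 n).Prime)).card := by
  unfold N
  congr 1
  ext x
  simp only [Finset.mem_filter, Finset.mem_product, Finset.mem_Icc, Finset.mem_Ioc, T_eq]
  constructor
  · rintro ⟨⟨⟨h1, h2⟩, h3, h4⟩, h5⟩
    exact ⟨⟨⟨by omega, h2⟩, by omega, h4⟩, h5⟩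
  · rintro ⟨⟨⟨h1, h2⟩, h3, h4⟩, h5⟩
    exact ⟨⟨⟨by omega, h2⟩, by omega, h4⟩, h5⟩

/-- **Primes in the sequences with the recurrence of the Fibonacci numbers.** -/
theorem result :
    (∀ n, T 0 1 n = Nat.fib n) ∧ (∀ n, T 1 1 n = Nat.fib (n + 1)) ∧ (∀ n, T 1 3 n = T 2 1 (n + 1)) ∧
    ∃ c C : ℝ, 0 < c ∧ 0 < C ∧
      (∃ B₀ : ℕ, ∀ A B : ℕ, B₀ ≤ B → A ≤ B → ∀ S : Finset ℕ, (∀ n ∈ S, 1 ≤ n ∧ 8 * Nat.fib n ≤ A) →
        c * (S.card * (A * B) / Real.log B) ≤ N S A B ∧ (N S A B : ℝ) ≤ C * (S.card * (A * B) / Real.log B)) ∧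
      (∀ ε : ℝ, 0 < ε → ∀ᶠ B : ℕ in atTop, ∀ A : ℕ, (B : ℝ) ^ ε ≤ A → A ≤ B →
        c * ε * (A * B) ≤ N (Finset.Icc 1 ⌊Real.log A⌋₊) A B) := by
  refine ⟨fun n => ?_, fun n => ?_, fun n => ?_, ?_⟩
  · induction n using Nat.twoStepInduction with
    | zero => rfl
    | one => rfl
    | more n h1 h2 =>
      show T 0 1 (n + 1) + T 0 1 n = _
      rw [h1, h2, Nat.fib_add_two, add_comm]
  · induction n using Nat.twoStepInduction with
    | zero => rfl
    | one => rfl
    | more n h1 h2 =>
      show T 1 1 (n + 1) + T 1 1 n = _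
      rw [h1, h2, Nat.fib_add_two (n := n + 1), add_comm]
  · induction n using Nat.twoStepInduction with
    | zero => rfl
    | one => rfl
    | more n h1 h2 =>
      show T 1 3 (n + 1) + T 1 3 n = T 2 1 (n + 1 + 1) + T 2 1 (n + 1)
      rw [h1, h2]
  obtain ⟨c, C, hc, hC, B₀, h⟩ := Pool.Agent.T9h55.PI.main
  refine ⟨c / 2, C, by positivity, hC, ⟨max B₀ 2, fun A B hB hAB S hS => ?_⟩, fun ε hε => ?_⟩
  · have h1 := h A B ((le_max_left _ _).trans hB) hAB S hS
    rw [← N_eq] at h1
    have hB2 : 2 ≤ B := (le_max_right _ _).trans hB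
    have hBR : (2 : ℝ) ≤ B := by exact_mod_cast hB2
    have h0 : 0 ≤ c * (S.card * (A * B) / Real.log B) :=
      mul_nonneg hc.le (div_nonneg (by positivity) (Real.log_nonneg (by linarith)))
    exact ⟨by linarith [h1.1], h1.2⟩
  · have hlim : Tendsto (fun B : ℕ => (B : ℝ) ^ ε) atTop atTop :=
      (tendsto_rpow_atTop hε).comp tendsto_natCast_atTop_atTop
    filter_upwards [eventually_ge_atTop B₀, eventually_ge_atTop 2, hlim.eventually_ge_atTop 1024] with B h1 h2 h3 A h4 h5
    have hBR : (2 : ℝ) ≤ B := by exact_mod_cast h2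
    have hAR : (1024 : ℝ) ≤ A := h3.trans h4
    have hA0 : (0 : ℝ) < A := by linarith
    have hlB : 0 < Real.log B := Real.log_pos (by linarith)
    have hlA2 : 2 ≤ Real.log A := by
      have e1 : Real.log 1024 ≤ Real.log A := Real.log_le_log (by norm_num) hAR
      have e2 : Real.log 1024 = 10 * Real.log 2 := by
        rw [show (1024 : ℝ) = 2 ^ 10 by norm_num, Real.log_pow]
        norm_num
      have := Real.log_two_gt_d9
      linarith
    have hlA : ε * Real.log B ≤ Real.log A := by
      have e1 := Real.log_le_log (by positivity) h4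
      rwa [Real.log_rpow (by linarith)] at e1
    have h6 := (h A B h1 h5 (Finset.Icc 1 ⌊Real.log A⌋₊) (fun n hn => by
      rw [Finset.mem_Icc] at hn
      refine ⟨hn.1, ?_⟩
      have e1 : (n : ℝ) ≤ Real.log A := (Nat.le_floor_iff (by linarith)).1 hn.2
      have e2 : (Nat.fib n : ℝ) ≤ (2 : ℝ) ^ n := by exact_mod_cast Pool.Agent.T9h55.PI.fib_le_two_pow n
      have hl2 := Real.log_two_lt_d9
      have hl2' := Real.log_two_gt_d9
      have e3 : (2 : ℝ) ^ n ≤ (A : ℝ) ^ (7 / 10 : ℝ) := by
        rw [← Real.rpow_natCast, Real.rpow_def_of_pos (by norm_num : (0 : ℝ) < 2), Real.rpow_def_of_pos hA0]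
        refine Real.exp_le_exp.2 ?_
        calc Real.log 2 * n ≤ 7 / 10 * n := mul_le_mul_of_nonneg_right (by linarith) (Nat.cast_nonneg _)
          _ ≤ 7 / 10 * Real.log A := mul_le_mul_of_nonneg_left e1 (by norm_num)
          _ = _ := mul_comm _ _
      have e4 : (8 : ℝ) ≤ (A : ℝ) ^ (3 / 10 : ℝ) := by
        calc (8 : ℝ) = (1024 : ℝ) ^ (3 / 10 : ℝ) := by
              rw [show (1024 : ℝ) = 2 ^ (10 : ℝ) by norm_num, ← Real.rpow_mul (by norm_num)]
              norm_num
          _ ≤ _ := Real.rpow_le_rpow (by norm_num) hAR (by norm_num)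
      have e5 : (8 : ℝ) * Nat.fib n ≤ A := by
        calc (8 : ℝ) * Nat.fib n ≤ (A : ℝ) ^ (3 / 10 : ℝ) * (A : ℝ) ^ (7 / 10 : ℝ) :=
              mul_le_mul e4 (e2.trans e3) (Nat.cast_nonneg _) (by positivity)
          _ = (A : ℝ) ^ (1 : ℝ) := by
              rw [← Real.rpow_add hA0]
              norm_num
          _ = A := Real.rpow_one _
      exact_mod_cast e5)).1
    rw [← N_eq] at h6
    refine le_trans ?_ h6
    rw [Nat.card_Icc, Nat.add_sub_cancel]
    have h7 : ε * Real.log B / 2 ≤ (⌊Real.log A⌋₊ : ℝ) := by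
      have := Nat.lt_floor_add_one (Real.log A)
      linarith
    calc c / 2 * ε * (A * B) = c * ((ε * Real.log B / 2) * (A * B) / Real.log B) := by
          field_simp
      _ ≤ c * ((⌊Real.log A⌋₊ : ℝ) * (A * B) / Real.log B) := by
          refine mul_le_mul_of_nonneg_left ?_ hc.le
          refine div_le_div_of_nonneg_right ?_ hlB.le
          exact mul_le_mul_of_nonneg_right h7 (by positivity)

end Pool.Agent.Results.MP_5893d7_nt.PrimesInFibonacciLikeSequences
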