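import Pool.Agent.T9h55.FM.Law
import Pool.Agent.T9h55.FM.Ex
import Pool.Agent.T9h55.PF.Ins
import Pool.Agent.T9h55.RM.Model
import Pool.Agent.H447R2.ML.Luc

/-!
# The asymptotic number of primes near the Fibonacci and Lucas numbers, in the same small residue classes

Let `a` be a sequence of natural numbers of the size of `φ ^ n`, up to constants, such that for all large primes `p` the
prime factors of `a p` are larger than `p`; the Fibonacci and the Lucas numbers are such sequences. Let `M_p ≤ p ^ A` be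
positive integers without prime factors larger than `p`, and move `a p` to `T_p = a p + M_p ξ_p`, with independent random
integers `ξ_p`, uniformly distributed on `0, …, H_p - 1`, where `φ ^ p / p ^ A ≤ M_p H_p ≤ φ ^ p p ^ A`. So `T_p` has the
residue of `a p` modulo `M_p`. For every `A ≥ 1` one can take `M_p` divisible by all positive integers `m ≤ (A / 6) log p` and
`M_p H_p ≤ 2 φ ^ p / p ^ A`, so that `T_p` has the residues of `a p` modulo all these `m`, and `|T_p - a p| ≤ 2 φ ^ p / p ^ A`.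

It is proved that almost surely the number of primes `p ≤ n` such that `T_p` is prime is asymptotic to
`V(n) = (1 / log φ) ∑ M_p / (φ(M_p) p)`, the sum over the primes `p ≤ n`, which tends to infinity (this is the number
predicted by the heuristics which uses that `T_p` is prime to `M_p`). For every set `S` of primes the same is true for the
primes `p` in `S` if the sum over these primes is unbounded, and if it is bounded, almost surely only finitely many `T_p` with
`p` in `S` are prime.

Proof: the theorem of Siegel and Walfisz for the modulus `M_p`, and the strong law of large numbers for independent events.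
-/

set_option autoImplicit false

namespace Pool.Agent.Results.MP_5893d7_nt.SameResiduesAsymptotics

open Finset Filter Topology MeasureTheory ProbabilityTheory

/-- The golden ratio. -/
noncomputable def φ : ℝ := (1 + Real.sqrt 5) / 2

/-- The Lucas numbers. -/
def L : ℕ → ℕ
  | 0 => 2
  | 1 => 1
  | (n + 2) => L (n + 1) + L n

/-- The sequence `a` has the size of `φ ^ n`, with the constant `K`. -/
def Size (K : ℝ) (a : ℕ → ℕ) : Prop := ∀ᶠ n : ℕ in atTop, φ ^ n ≤ K * a n ∧ (a n : ℝ) ≤ K * φ ^ n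

/-- For all large primes `p` the prime factors of `a p` are larger than `p`. -/
def LargeFactors (a : ℕ → ℕ) : Prop := ∀ᶠ p : ℕ in atTop, p.Prime → ∀ q : ℕ, q.Prime → q ∣ a p → p < q

/-- The admissible moduli and lengths: `M_p ≥ 1`, and for all large `p` one has `M_p ≤ p ^ A`, the prime factors of `M_p` are at
most `p`, and `φ ^ p / p ^ A ≤ M_p H_p ≤ φ ^ p p ^ A`. -/
structure Admissible (A : ℕ) (M H : ℕ → ℕ) : Prop where
  pos : ∀ p, 1 ≤ M p
  modulus : ∀ᶠ p : ℕ in atTop, (M p : ℝ) ≤ (p : ℝ) ^ A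
  factors : ∀ᶠ p : ℕ in atTop, ∀ q : ℕ, q.Prime → q ∣ M p → q ≤ p
  window : ∀ᶠ p : ℕ in atTop, φ ^ p / (p : ℝ) ^ A ≤ (M p : ℝ) * H p ∧ (M p : ℝ) * H p ≤ φ ^ p * (p : ℝ) ^ A

/-- The integers `ξ_0, ξ_1, …` are independent random variables (on a probability space), and for `j ≥ 1` the variable `ξ_j` is
uniformly distributed on `0, …, H_j - 1`. -/
structure Perturbation {Ω : Type*} [MeasurableSpace Ω] (μ : Measure Ω) (H : ℕ → ℕ) (ξ : ℕ → Ω → ℕ) : Prop where
  prob : IsProbabilityMeasure μ
  meas : ∀ j, Measurable (ξ j)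
  indep : iIndepFun ξ μ
  unif : ∀ j, 1 ≤ j → ∀ i < H j, μ.real {ω | ξ j ω = i} = 1 / (H j : ℝ)

open Classical in
/-- The number of the primes `p ≤ n` in `S` such that `a p + M_p x_p` is prime. -/
noncomputable def N (a M x : ℕ → ℕ) (S : Set ℕ) (n : ℕ) : ℕ :=
  ((range (n + 1)).filter fun p => p.Prime ∧ p ∈ S ∧ (a p + M p * x p).Prime).card

open Classical in
/-- The sum of `M_p / (φ(M_p) p log φ)` over the primes `p ≤ n` in `S`. -/
noncomputable def V (M : ℕ → ℕ) (S : Set ℕ) (n : ℕ) : ℝ :=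
  ∑ p ∈ (range (n + 1)).filter (fun p => p.Prime ∧ p ∈ S), ((M p : ℝ) / Nat.totient (M p)) / (p * Real.log φ)

lemma V_eq (M : ℕ → ℕ) (S : Set ℕ) (n : ℕ) : V M S n = ∑ j ∈ range (n + 1), Pool.Agent.T9h55.FM.ws M S j := by
  classical
  unfold V
  rw [Finset.sum_filter]
  rfl

lemma fib_eq (n : ℕ) : Pool.Agent.H447R2.ML.U 1 n = Nat.fib n := by
  induction n using Nat.twoStepInduction with
  | zero => rfl
  | one => rfl
  | more n h1 h2 =>
    rw [Pool.Agent.H447R2.ML.U_add_two, h1, h2, Nat.fib_add_two]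
    ring

lemma luc_eq (n : ℕ) : Pool.Agent.H447R2.ML.V 1 n = L n := by
  induction n using Nat.twoStepInduction with
  | zero => rfl
  | one => rfl
  | more n h1 h2 =>
    show _ = L (n + 1) + L n
    rw [Pool.Agent.H447R2.ML.V_add_two, h1, h2]
    ring

lemma V_mono (M : ℕ → ℕ) (S : Set ℕ) : Monotone (V M S) := by
  intro a b hab
  rw [V_eq, V_eq]
  apply Finset.sum_le_sum_of_subset_of_nonneg
  · intro j hj
    rw [mem_range] at hj ⊢
    omega
  · intro j _ _
    exact Pool.Agent.T9h55.FM.ws_nonneg M S j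

lemma V_univ (M : ℕ → ℕ) (hM : ∀ p, 1 ≤ M p) : Tendsto (V M Set.univ) atTop atTop := by
  classical
  have hφ1 : 1 < φ := Real.one_lt_goldenRatio
  have hl : 0 < Real.log φ := Real.log_pos hφ1
  have h1 := not_summable_one_div_on_primes
  have h2 : Tendsto (fun n => ∑ i ∈ range n, Set.indicator {p : ℕ | p.Prime} (fun n : ℕ => (1 : ℝ) / n) i) atTop atTop := by
    apply (not_summable_iff_tendsto_nat_atTop_of_nonneg ?_).1 h1
    intro i
    apply Set.indicator_nonneg
    intro j _
    positivity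
  have h3 := (h2.comp (tendsto_add_atTop_nat 1)).atTop_div_const hl
  apply tendsto_atTop_mono _ h3
  intro n
  simp only [Function.comp_apply]
  rw [V_eq, Finset.sum_div]
  apply Finset.sum_le_sum
  intro j _
  unfold Pool.Agent.T9h55.FM.ws
  by_cases hj : j.Prime
  · rw [if_pos ⟨hj, Set.mem_univ j⟩, Set.indicator_of_mem (by exact hj)]
    unfold Pool.Agent.T9h55.FM.wt
    have hj0 : (0 : ℝ) < j := by exact_mod_cast hj.pos
    rw [div_div]
    apply div_le_div_of_nonneg_right (Pool.Agent.T9h55.FM.rt_ge_one (hM j))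
    exact mul_nonneg hj0.le hl.le
  · rw [Set.indicator_of_notMem (by exact hj), zero_div]
    split_ifs
    · exact Pool.Agent.T9h55.FM.wt_nonneg M j
    · exact le_rfl

universe u

/-- **The asymptotic number of primes near the Fibonacci and Lucas numbers, in the same small residue classes.** -/
theorem result :
    -- the Fibonacci and the Lucas numbers
    ((∃ K : ℝ, Size K Nat.fib) ∧ LargeFactors Nat.fib) ∧ ((∃ K : ℝ, Size K L) ∧ LargeFactors L) ∧
    -- the moduli and the lengths
    (∀ A : ℕ, 1 ≤ A → ∃ M H : ℕ → ℕ, Admissible A M H ∧ (∀ p, 1 ≤ H p) ∧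
      (∀ p m : ℕ, 1 ≤ m → (m : ℝ) ≤ (A : ℝ) / 6 * Real.log p → m ∣ M p) ∧
      ∀ᶠ p : ℕ in atTop, (M p : ℝ) * H p ≤ 2 * (φ ^ p / (p : ℝ) ^ A)) ∧
    -- the law
    ∀ (A : ℕ) (M H : ℕ → ℕ), Admissible A M H →
      Tendsto (V M Set.univ) atTop atTop ∧
      ((∀ p, 1 ≤ p → 1 ≤ H p) →
        ∃ (Ω : Type) (_ : MeasurableSpace Ω) (μ : Measure Ω) (ξ : ℕ → Ω → ℕ), Perturbation μ H ξ) ∧
      ∀ (Ω : Type u) [MeasurableSpace Ω] (μ : Measure Ω) (ξ : ℕ → Ω → ℕ), Perturbation μ H ξ →
        ∀ (a : ℕ → ℕ) (K : ℝ), Size K a → LargeFactors a → ∀ S : Set ℕ,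
          (Tendsto (V M S) atTop atTop →
            ∀ᵐ ω ∂μ, Tendsto (fun n : ℕ => (N a M (fun p => ξ p ω) S n : ℝ) / V M S n) atTop (𝓝 1)) ∧
          ((∃ B : ℝ, ∀ n, V M S n ≤ B) →
            ∀ᵐ ω ∂μ, {p : ℕ | p.Prime ∧ p ∈ S ∧ (a p + M p * ξ p ω).Prime}.Finite) := by
  classical
  refine ⟨⟨?_, ?_⟩, ⟨?_, ?_⟩, fun A hA => ?_, fun A M H hadm => ⟨V_univ M hadm.pos, fun hH => ?_, ?_⟩⟩
  · exact Pool.Agent.T9h55.PF.fib_size Nat.fib (fun n => by rw [Nat.fib_add_two]; ring) (Or.inr (by norm_num))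
  · filter_upwards [eventually_gt_atTop 5] with p h5 hp q hq hd
    rw [← fib_eq] at hd
    refine Pool.Agent.H447R2.ML.lt_of_dvd_U 1 hp (by omega) ?_ hq hd
    intro h1
    have := Nat.le_of_dvd (by norm_num) h1
    omega
  · exact Pool.Agent.T9h55.PF.fib_size L (fun n => rfl) (Or.inr (by decide))
  · filter_upwards [eventually_gt_atTop 5] with p h5 hp q hq hd
    rw [← luc_eq] at hd
    exact Pool.Agent.H447R2.ML.lt_of_dvd_V 1 hp (by omega) (fun h1 => hp.one_lt.ne' (Nat.dvd_one.1 h1)) hq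
      (fun h' => hq.one_lt.ne' (Nat.dvd_one.1 h')) hd
  · obtain ⟨M, H, h1, h2, h3, h4, h5, h6⟩ := Pool.Agent.T9h55.FM.exists_mod A
    refine ⟨M, H, ⟨h1, h2, h3, ?_⟩, h5, h6, ?_⟩
    · filter_upwards [h4, eventually_ge_atTop 2] with p g1 g2
      refine ⟨g1.1, g1.2.trans ?_⟩
      have hp2 : (2 : ℝ) ≤ p := by exact_mod_cast g2
      have hφ0 : (0 : ℝ) < φ := Real.goldenRatio_pos
      have h7 : (2 : ℝ) ≤ (p : ℝ) ^ A := hp2.trans (le_self_pow₀ (by linarith) (by omega))
      have h8 : 0 < φ ^ p := by positivity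
      calc 2 * (φ ^ p / (p : ℝ) ^ A) ≤ (p : ℝ) ^ A * (φ ^ p / 1) := by
            apply mul_le_mul h7 _ (by positivity) (by positivity)
            exact div_le_div_of_nonneg_left h8.le one_pos (by linarith)
        _ = φ ^ p * (p : ℝ) ^ A := by ring
    · filter_upwards [h4] with p g1
      exact g1.2
  · obtain ⟨Ω, mΩ, μ, ξ, h3, h4, h5, h6⟩ := Pool.Agent.T9h55.RM.exists_unif H hH
    exact ⟨Ω, mΩ, μ, ξ, ⟨h3, h4, h5, h6⟩⟩
  · intro Ω _ μ ξ hξ a K ha hL S
    have := hξ.prob
    obtain ⟨l1, l2⟩ := Pool.Agent.T9h55.FM.law (μ := μ) A M H a K hadm.pos hadm.modulus hadm.factors hadm.window ha hL ξ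
      hξ.meas hξ.indep hξ.unif S
    constructor
    · intro hV
      have hW : Tendsto (fun n => ∑ j ∈ range n, Pool.Agent.T9h55.FM.ws M S j) atTop atTop := by
        rw [← tendsto_add_atTop_iff_nat 1]
        exact hV.congr fun n => V_eq M S n
      filter_upwards [l1 hW] with ω hω
      have h1 := hω.comp (tendsto_add_atTop_nat 1)
      refine h1.congr fun n => ?_
      simp only [Function.comp_apply]
      rw [← V_eq]
      have e : Pool.Agent.T9h55.FM.num (Pool.Agent.T9h55.FM.Ev a M ξ S) (n + 1) ω = N a M (fun p => ξ p ω) S n := by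
        unfold Pool.Agent.T9h55.FM.num N
        congr 1
        ext p
        simp only [mem_filter]
        rfl
      rw [e]
    · rintro ⟨B, hB⟩
      have hs : Summable (Pool.Agent.T9h55.FM.ws M S) := by
        apply summable_of_sum_range_le (c := B) (fun j => Pool.Agent.T9h55.FM.ws_nonneg M S j)
        intro n
        refine le_trans ?_ (hB n)
        rw [V_eq]
        apply Finset.sum_le_sum_of_subset_of_nonneg
        · intro j hj
          rw [mem_range] at hj ⊢
          omega
        · intro j _ _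
          exact Pool.Agent.T9h55.FM.ws_nonneg M S j
      exact l2 hs

end Pool.Agent.Results.MP_5893d7_nt.SameResiduesAsymptotics
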